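import Mathlib
import Pool.Agent.H932R3.Finals
import Pool.Agent.H248R6.Dim
import Pool.Agent.TH641.EN.Fin
import Pool.Agent.TH648.EN.Raised
import Pool.Agent.TH105.NU.All

set_option autoImplicit false

/-!
# Plane linear systems with many general base points, in every degree

Let `n ≥ 37`, `m ≥ 1` and let `v` be the vector `(m, ..., m)`, or this vector with one entry
raised to `m + 1`. For `n` general points of the complex projective plane and EVERY degree `d`, the
forms of degree `d` with multiplicity at least `v i` at the points form a space of the expected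
dimension, and the same holds for all smaller multiplicities `w i ≤ v i` as soon as
`∑ (v i + 1).choose 2 ≤ (d + 2).choose 2`. For all large `n` this holds for all vectors `v` with
entries `m` and `m + 1`.
-/

namespace Pool.Agent.Results.MP_0b14b0_ag.PlaneEveryDegree

/-- The forms of degree `d` with multiplicity at least `w i` at the point `(P i 0 : P i 1 : 1)` of
the complex projective plane, for every `i`, form a space of the expected dimension
`max (0, (d + 2).choose 2 - ∑ (w i + 1).choose 2)`. -/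
def NonSpecial {n : ℕ} (w : Fin n → ℕ) (P : Fin n → Fin 2 → ℂ) (d : ℕ) : Prop :=
  Module.finrank ℂ
    ↥(MvPolynomial.homogeneousSubmodule (Fin 3) ℂ d ⊓
      Submodule.restrictScalars ℂ
        (⨅ i : Fin n,
          (Ideal.span
            ({MvPolynomial.X 0 - MvPolynomial.C (P i 0) * MvPolynomial.X 2,
              MvPolynomial.X 1 - MvPolynomial.C (P i 1) * MvPolynomial.X 2} :
              Set (MvPolynomial (Fin 3) ℂ))) ^ (w i)))
    = Nat.choose (d + 2) 2 - ∑ i, Nat.choose (w i + 1) 2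

theorem nonSpecial_of {n : ℕ} {w v : Fin n → ℕ} {P : Fin n → Fin 2 → ℂ} {d : ℕ}
    (h : Pool.Agent.H932R3.ExpDim ℂ v P d)
    (hw : w = v ∨ (∀ i, w i ≤ v i) ∧ ∑ i, (v i + 1).choose 2 ≤ (d + 2).choose 2) :
    NonSpecial w P d := by
  rcases hw with rfl | ⟨hw, hc⟩
  · exact h
  · have h1 : Module.finrank ℂ ↥(Pool.Agent.H248R5.forms v P d) =
        (d + 2).choose 2 - ∑ i, (v i + 1).choose 2 := h
    have h2 : Function.Surjective (Pool.Agent.H248R5.ev w P d) :=
      Pool.Agent.H248R6.surj_mono hw (Pool.Agent.H248R5.surj_of_ind (by omega))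
    have h3 := Pool.Agent.H248R6.finrank_of_surj h2
    have h4 : Module.finrank ℂ ↥(Pool.Agent.H248R5.forms w P d) =
        (d + 2).choose 2 - ∑ i, (w i + 1).choose 2 := by omega
    exact h4

/-- One open set for finitely many vectors of multiplicities. -/
theorem open_of {n : ℕ} (S : Finset (Fin n → ℕ))
    (hS : ∀ v ∈ S, ∃ F : MvPolynomial (Fin n × Fin 2) ℚ, F ≠ 0 ∧ ∀ P : Fin n → Fin 2 → ℂ,
      MvPolynomial.aeval (fun ij : Fin n × Fin 2 => P ij.1 ij.2) F ≠ 0 →
      ∀ d, Pool.Agent.H932R3.ExpDim ℂ v P d) :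
    ∃ F : MvPolynomial (Fin n × Fin 2) ℂ, F ≠ 0 ∧ ∀ P : Fin n → Fin 2 → ℂ,
      MvPolynomial.eval (fun ij : Fin n × Fin 2 => P ij.1 ij.2) F ≠ 0 →
      ∀ v ∈ S, ∀ d, Pool.Agent.H932R3.ExpDim ℂ v P d := by
  classical
  choose G hG hG' using hS
  let F : MvPolynomial (Fin n × Fin 2) ℚ := ∏ v : S, G v.1 v.2
  have hF : F ≠ 0 := Finset.prod_ne_zero_iff.2 fun v _ => hG v.1 v.2
  refine ⟨F.map (algebraMap ℚ ℂ), fun h0 => hF (MvPolynomial.map_injective (algebraMap ℚ ℂ)
    (algebraMap ℚ ℂ).injective (by rw [h0, map_zero])), fun P hP v hv d => ?_⟩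
  rw [MvPolynomial.eval_map] at hP
  refine hG' v hv P ?_ d
  have h1 : MvPolynomial.aeval (fun ij : Fin n × Fin 2 => P ij.1 ij.2) F ≠ 0 := hP
  rw [map_prod] at h1
  exact Finset.prod_ne_zero_iff.1 h1 ⟨v, hv⟩ (Finset.mem_univ _)

/-- **The plane case in every degree.** -/
theorem result :
    (∀ n : ℕ, 37 ≤ n → ∀ m : ℕ, 1 ≤ m → ∃ F : MvPolynomial (Fin n × Fin 2) ℂ, F ≠ 0 ∧
      ∀ P : Fin n → Fin 2 → ℂ,
        MvPolynomial.eval (fun ij : Fin n × Fin 2 => P ij.1 ij.2) F ≠ 0 →
        ∀ (v w : Fin n → ℕ) (d : ℕ),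
          ((∀ i, v i = m) ∨ ∃ k, v k = m + 1 ∧ ∀ i, i ≠ k → v i = m) →
          (w = v ∨ (∀ i, w i ≤ v i) ∧ ∑ i, (v i + 1).choose 2 ≤ (d + 2).choose 2) →
          NonSpecial w P d) ∧
    (∃ N : ℕ, ∀ n : ℕ, N ≤ n → ∀ m : ℕ, 1 ≤ m → ∃ F : MvPolynomial (Fin n × Fin 2) ℂ, F ≠ 0 ∧
      ∀ P : Fin n → Fin 2 → ℂ,
        MvPolynomial.eval (fun ij : Fin n × Fin 2 => P ij.1 ij.2) F ≠ 0 →
        ∀ (v w : Fin n → ℕ) (d : ℕ),
          (∀ i, v i = m ∨ v i = m + 1) →
          (w = v ∨ (∀ i, w i ≤ v i) ∧ ∑ i, (v i + 1).choose 2 ≤ (d + 2).choose 2) →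
          NonSpecial w P d) := by
  classical
  constructor
  · intro n hn m hm
    obtain ⟨F, hF, hF'⟩ := open_of (n := n)
      (insert (fun _ => m) (Finset.univ.image fun k => Function.update (fun _ => m) k (m + 1)))
      (by
        intro v hv
        rw [Finset.mem_insert, Finset.mem_image] at hv
        rcases hv with rfl | ⟨k, -, rfl⟩
        · exact Pool.Agent.TH641.EN.exp37 hn hm
        · exact Pool.Agent.TH648.EN.exp_raised hn hm k)
    refine ⟨F, hF, fun P hP v w d hv hw => nonSpecial_of (hF' P hP v ?_ d) hw⟩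
    rw [Finset.mem_insert, Finset.mem_image]
    rcases hv with h | ⟨k, h1, h2⟩
    · exact Or.inl (funext h)
    · refine Or.inr ⟨k, Finset.mem_univ _, funext fun i => ?_⟩
      by_cases hi : i = k
      · subst hi
        rw [Function.update_self, h1]
      · rw [Function.update_of_ne hi, h2 i hi]
  · obtain ⟨N, hN⟩ := Pool.Agent.TH105.NU.expDim_near
    refine ⟨N, fun n hn m hm => ?_⟩
    obtain ⟨F, hF, hF'⟩ := open_of (n := n)
      (Fintype.piFinset fun _ => ({m, m + 1} : Finset ℕ))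
      (by
        intro v hv
        rw [Fintype.mem_piFinset] at hv
        exact hN n hn m hm v fun i => by simpa using hv i)
    refine ⟨F, hF, fun P hP v w d hv hw => nonSpecial_of (hF' P hP v ?_ d) hw⟩
    rw [Fintype.mem_piFinset]
    exact fun i => by simpa using hv i

end Pool.Agent.Results.MP_0b14b0_ag.PlaneEveryDegree
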