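import Pool.Agent.TH167.TT.Conv9
import Pool.Agent.TH868.IS.Iso

set_option autoImplicit false

/-!
# Isolated singularities at the base points: at most nine multiplicities larger than two

Let `P i` be `s ≥ 4` general points of the complex projective plane with multiplicities `w i`, of
which at most nine are larger than `2` (`s` is arbitrary). If the linear system of the curves of
degree `d` with multiplicity at least `w i` at `P i` has a member with isolated singularities at
all the points `P i` (in particular if its general member has), then the system is non-special.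
-/

namespace Pool.Agent.Results.MP_0b14b0_ag.PlaneNineAboveTwo

open MvPolynomial Pool.Agent.TH167 Pool.Agent.TH167.SHDefs Pool.Agent.TH868.IS

theorem eval_of_mem {K : Type} [Field K] {p : Fin 2 → K} {f : MvPolynomial (Fin 3) K} {n : ℕ}
    (hn : 0 < n) (hf : f ∈ pt p ^ n) : eval ![p 0, p 1, 1] f = 0 := by
  have h1 : f ∈ pt p := Ideal.pow_le_self hn.ne' hf
  have h2 : pt p ≤ RingHom.ker (eval (![p 0, p 1, 1] : Fin 3 → K)) := by
    unfold pt
    rw [Ideal.span_le]
    rintro x (rfl | rfl)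
    · show eval _ _ = 0
      simp
    · show eval _ _ = 0
      simp
  exact h2 h1

theorem finrank_pos {s d : ℕ} {w : Fin s → ℕ} {P : Fin s → Fin 2 → ℂ}
    {G : MvPolynomial (Fin 3) ℂ} (hG : G ∈ sys P d w) (hG0 : G ≠ 0) :
    0 < Module.finrank ℂ ↥(sys P d w) := by
  have hfin : FiniteDimensional ℂ ↥(sys P d w) := by
    have h1 : Module.Finite ℂ ↥(homogeneousSubmodule (Fin 3) ℂ d) :=
      Module.Finite.iff_fg.2 (homogeneousSubmodule_fg _ _ d)
    exact Submodule.finiteDimensional_of_le inf_le_left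
  rw [Module.finrank_pos_iff]
  exact ⟨⟨⟨G, hG⟩, 0, fun h0 => hG0 (congrArg Subtype.val h0)⟩⟩

theorem nine (r d : ℕ) (w : Fin (r + 4) → ℕ)
    (hw : (Finset.univ.filter fun i => 2 < w i).card ≤ 9) :
    ∃ F : MvPolynomial (Fin (r + 4) × Fin 2) ℂ, F ≠ 0 ∧
      ∀ P : Fin (r + 4) → Fin 2 → ℂ,
        eval (fun ij : Fin (r + 4) × Fin 2 => P ij.1 ij.2) F ≠ 0 →
        (∃ G ∈ sys P d w, G ≠ 0 ∧ ∀ i, IsolatedAt G ![P i 0, P i 1, 1]) →
          Module.finrank ℂ ↥(sys P d w) + ∑ i, (w i + 1).choose 2 = (d + 2).choose 2 := by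
  obtain ⟨F, hF, h⟩ := TT.hh9_conv d w hw
  refine ⟨F, hF, fun P hP => ?_⟩
  rintro ⟨G, hG, hG0, hiso⟩
  obtain ⟨hinj, hsp⟩ := h P hP
  have hns : ¬ Special P d w := by
    intro hs
    obtain ⟨f, e, u, hf, hle⟩ := SH.mspecial_curve (hsp.1 hs)
    have hdvd := SH.curve_sq_dvd hinj hf hle hG
    obtain ⟨i, hi⟩ : ∃ i, 0 < u i := by
      by_contra hcon
      push Not at hcon
      have h1 := hf.self
      unfold inter at h1
      have h2 : ∑ i, (u i : ℤ) * (u i : ℤ) = 0 := by
        refine Finset.sum_eq_zero fun i _ => ?_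
        have h3 : u i = 0 := Nat.le_zero.1 (hcon i)
        rw [h3]
        simp
      rw [h2] at h1
      have h4 : (0 : ℤ) ≤ (e : ℤ) * e := mul_self_nonneg _
      omega
    exact not_isolated hf.curve.irreducible (eval_of_mem hi (hf.curve.mult i).1) hdvd (hiso i)
  unfold Special at hns
  push Not at hns
  have hpos := finrank_pos hG hG0
  unfold dimL virtdim at hns
  have h5 : ((∑ i, (w i + 1).choose 2 : ℕ) : ℤ) = ∑ i, ((w i + 1).choose 2 : ℤ) := by
    push_cast
    rfl
  rw [← h5] at hns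
  omega

theorem result (s d : ℕ) (w : Fin s → ℕ) (hs : 4 ≤ s)
    (hw : (Finset.univ.filter fun i => 2 < w i).card ≤ 9) :
    ∃ F : MvPolynomial (Fin s × Fin 2) ℂ, F ≠ 0 ∧
      ∀ P : Fin s → Fin 2 → ℂ,
        eval (fun ij : Fin s × Fin 2 => P ij.1 ij.2) F ≠ 0 →
        (∃ G ∈ sys P d w, G ≠ 0 ∧ ∀ i, IsolatedAt G ![P i 0, P i 1, 1]) →
          Module.finrank ℂ ↥(sys P d w) + ∑ i, (w i + 1).choose 2 = (d + 2).choose 2 := by
  obtain ⟨r, rfl⟩ := Nat.exists_eq_add_of_le' hs
  exact nine r d w hw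

end Pool.Agent.Results.MP_0b14b0_ag.PlaneNineAboveTwo
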